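import Pool.Agent.Helper244.Br.Final

/-!
Eigenvalue sums of `B Bᵀ` when `Bᵀ B` is a shift of `Cᵀ C` and `C Cᵀ` is a graph Laplacian
(helper786).
-/

set_option autoImplicit false

namespace Pool.Agent.Y786.UL

open Finset Polynomial

theorem rm_mul_comm {E F : Type} [Fintype E] [DecidableEq E] [Fintype F] [DecidableEq F]
    (A : Matrix E F ℝ) (B : Matrix F E ℝ) (x : ℝ) (hx : x ≠ 0) :
    (A * B).charpoly.rootMultiplicity x = (B * A).charpoly.rootMultiplicity x := by
  have h := Matrix.charpoly_mul_comm' A B
  have hX : ∀ a : ℕ, ((X : ℝ[X]) ^ a).rootMultiplicity x = 0 := by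
    intro a
    apply rootMultiplicity_eq_zero
    rw [IsRoot.def, eval_pow, eval_X]
    exact pow_ne_zero _ hx
  have hne : ∀ (a : ℕ) (p : ℝ[X]), p.Monic → (X : ℝ[X]) ^ a * p ≠ 0 := fun a p hp =>
    mul_ne_zero (pow_ne_zero _ X_ne_zero) hp.ne_zero
  have h2 := congrArg (rootMultiplicity x) h
  rw [rootMultiplicity_mul (hne _ _ (Matrix.charpoly_monic _)),
    rootMultiplicity_mul (hne _ _ (Matrix.charpoly_monic _)), hX, hX, zero_add, zero_add] at h2
  exact h2

theorem rm_shift {F : Type} [Fintype F] [DecidableEq F] (M : Matrix F F ℝ) (c x : ℝ) :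
    (M - Matrix.scalar F c).charpoly.rootMultiplicity x = M.charpoly.rootMultiplicity (x + c) := by
  rw [Matrix.charpoly_sub_scalar, rootMultiplicity_eq_rootMultiplicity (t := x),
    rootMultiplicity_eq_rootMultiplicity (t := x + c), comp_assoc]
  congr 2
  rw [add_comp, X_comp, C_comp, C_add, add_assoc]

theorem transfer {E F : Type} [Fintype E] [DecidableEq E] [Fintype F] [DecidableEq F]
    (B C : Matrix E F ℝ) (c : ℝ) (hc : 0 ≤ c) (G : SimpleGraph E) [DecidableRel G.Adj]
    (h1 : B.conjTranspose * B - Matrix.scalar F c = C.conjTranspose * C)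
    (h2 : C * C.conjTranspose = G.lapMatrix ℝ) (hM : (B * B.conjTranspose).IsHermitian)
    (S : Finset E) :
    ∑ i ∈ S, hM.eigenvalues i ≤ c * S.card +
      ((G.edgeFinset.card : ℝ) + ((S.card : ℝ) ^ 2 + S.card) / 2) := by
  classical
  have hrm : ∀ x : ℝ, 0 < x → (B * B.conjTranspose).charpoly.rootMultiplicity (x + c) =
      (G.lapMatrix ℝ).charpoly.rootMultiplicity x := by
    intro x hx
    rw [rm_mul_comm B _ (x + c) (by linarith), ← rm_shift, h1, rm_mul_comm _ C x hx.ne', h2]
  set T : Finset E := S.filter (fun i => c < hM.eigenvalues i) with hT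
  set t : Multiset ℝ := T.val.map (fun i => hM.eigenvalues i - c) with ht
  have htle : t ≤ (G.lapMatrix ℝ).charpoly.roots := by
    rw [Multiset.le_iff_count]
    intro x
    rcases le_or_gt x 0 with hx | hx
    · have : Multiset.count x t = 0 := by
        rw [Multiset.count_eq_zero, ht, Multiset.mem_map]
        rintro ⟨i, hi, rfl⟩
        have := (Finset.mem_filter.1 (show i ∈ T from hi)).2
        linarith
      omega
    · rw [count_roots, ← hrm x hx, ← count_roots, hM.roots_charpoly_eq_eigenvalues, ht,
        Multiset.count_map, Multiset.count_map]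
      apply Multiset.card_le_card
      have e1 : Multiset.filter (fun a => x = hM.eigenvalues a - c) T.val ≤
          Multiset.filter (fun a => x = hM.eigenvalues a - c) univ.val :=
        Multiset.filter_le_filter _ (Finset.val_le_iff.2 (Finset.subset_univ T))
      refine e1.trans (le_of_eq ?_)
      apply Multiset.filter_congr
      intro i _
      simp only [Function.comp_apply, RCLike.ofReal_real_eq_id, id_eq]
      constructor
      · intro h; linarith
      · intro h; linarith
  have hb := Pool.Br.brouwer_multiset G t htle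
  have hcard : t.card = T.card := by rw [ht, Multiset.card_map]; rfl
  have hsum : t.sum = ∑ i ∈ T, (hM.eigenvalues i - c) := rfl
  have hTS : (T.card : ℝ) ≤ S.card := by exact_mod_cast Finset.card_filter_le _ _
  have h3 : ∑ i ∈ S, (hM.eigenvalues i - c) ≤ ∑ i ∈ T, (hM.eigenvalues i - c) := by
    rw [hT, Finset.sum_filter]
    refine Finset.sum_le_sum fun i _ => ?_
    split_ifs with h
    · exact le_rfl
    · linarith
  rw [Finset.sum_sub_distrib, Finset.sum_const, nsmul_eq_mul] at h3
  rw [hsum, hcard, Nat.cast_choose_two] at hb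
  push_cast at hb
  have hT0 : (0 : ℝ) ≤ T.card := Nat.cast_nonneg _
  nlinarith

end Pool.Agent.Y786.UL
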