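import Pool.Agent.Y786.UL.One
import Pool.Agent.Y786.UL.Transfer

/-!
The up-Laplacian of a complex whose `r`-faces share `r - 1` vertices (helper786).
-/

set_option autoImplicit false

namespace Pool.Agent.Y786.UL

open Finset

variable {n : ℕ}

/-- sign of a ridge -/
def sg (ρ σ : Finset (Fin n)) : ℝ := (-1 : ℝ) ^ (∑ x ∈ σ \ ρ, (ρ.filter (fun w => w < x)).card)

theorem sg_sq (ρ σ : Finset (Fin n)) : sg ρ σ * sg ρ σ = 1 := by
  rw [sg, ← mul_pow]
  norm_num

/-- the entries of the incidence matrix of a link graph -/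
def cmf (X : Finset (Finset (Fin n))) (r : ℕ) (ρ : Finset (Fin n))
    (σ : {σ : Finset (Fin n) // σ ∈ X ∧ σ.card = r})
    (τ : {τ : Finset (Fin n) // τ ∈ X ∧ τ.card = r + 1}) : ℝ :=
  if ρ ⊆ σ.1 then sg ρ σ.1 * bd X r σ τ else 0

/-- the incidence matrix of the union of the link graphs -/
def cm (X : Finset (Finset (Fin n))) (r : ℕ) (R : Finset (Fin n) → Finset (Fin n)) :
    Matrix {σ : Finset (Fin n) // σ ∈ X ∧ σ.card = r}
      {τ : Finset (Fin n) // τ ∈ X ∧ τ.card = r + 1} ℝ :=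
  Matrix.of (fun σ τ => cmf X r (R τ.1) σ τ)

theorem cnt_insert (ρ : Finset (Fin n)) (a b c : Fin n) (ha : a ∉ ρ) (hb : b ∉ ρ) (hab : a < b) :
    ((insert a (insert b ρ)).filter (fun w => w < c)).card =
      (ρ.filter (fun w => w < c)).card + (if a < c then 1 else 0) + (if b < c then 1 else 0) := by
  rw [filter_insert, filter_insert]
  have h1 : b ∉ ρ.filter (fun w => w < c) := fun h => hb (mem_filter.1 h).1
  have h2 : a ∉ insert b (ρ.filter (fun w => w < c)) := by
    rw [mem_insert]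
    rintro (h | h)
    · exact hab.ne h
    · exact ha (mem_filter.1 h).1
  have h3 : a ∉ ρ.filter (fun w => w < c) := fun h => ha (mem_filter.1 h).1
  by_cases hac : a < c <;> by_cases hbc : b < c
  · rw [if_pos hac, if_pos hbc, if_pos hac, if_pos hbc, card_insert_of_notMem h2,
      card_insert_of_notMem h1]
  · rw [if_pos hac, if_neg hbc, if_pos hac, if_neg hbc, card_insert_of_notMem h3]
  · rw [if_neg hac, if_pos hbc, if_neg hac, if_pos hbc, card_insert_of_notMem h1]
  · rw [if_neg hac, if_neg hbc, if_neg hac, if_neg hbc, add_zero, add_zero]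

theorem col_gen (X : Finset (Finset (Fin n)))
    (hX : ∀ s ∈ X, ∀ t : Finset (Fin n), t ⊆ s → t.Nonempty → t ∈ X)
    (r : ℕ) (ρ : Finset (Fin n)) (hρ : ρ.card + 1 = r)
    (τ : {τ : Finset (Fin n) // τ ∈ X ∧ τ.card = r + 1}) (hsub : ρ ⊆ τ.1) :
    ∃ α β : {σ : Finset (Fin n) // σ ∈ X ∧ σ.card = r}, α ≠ β ∧ α.1 ∪ β.1 = τ.1 ∧
      ∃ e : ℝ, e * e = 1 ∧
      ∀ σ, cmf X r ρ σ τ = if σ = α then -e else if σ = β then e else 0 := by
  have hc2 : (τ.1 \ ρ).card = 2 := by
    rw [card_sdiff_of_subset hsub, τ.2.2]; omega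
  obtain ⟨a, b, hab, hτ⟩ := pair_form _ hc2
  have ham : a ∈ τ.1 \ ρ := by rw [hτ]; simp
  have hbm : b ∈ τ.1 \ ρ := by rw [hτ]; simp
  rw [mem_sdiff] at ham hbm
  have hτ2 : τ.1 = insert a (insert b ρ) := by
    ext x
    have := Finset.ext_iff.1 hτ x
    simp only [mem_sdiff, mem_insert, mem_singleton] at this ⊢
    constructor
    · intro hx
      by_cases hxρ : x ∈ ρ
      · exact Or.inr (Or.inr hxρ)
      · rcases this.1 ⟨hx, hxρ⟩ with h | h
        · exact Or.inl h
        · exact Or.inr (Or.inl h)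
    · rintro (h | h | h)
      · rw [h]; exact ham.1
      · rw [h]; exact hbm.1
      · exact hsub h
  have hα : insert a ρ ∈ X := hX τ.1 τ.2.1 _ (insert_subset ham.1 hsub) (insert_nonempty a ρ)
  have hβ : insert b ρ ∈ X := hX τ.1 τ.2.1 _ (insert_subset hbm.1 hsub) (insert_nonempty b ρ)
  have hcα : (insert a ρ).card = r := by rw [card_insert_of_notMem ham.2, hρ]
  have hcβ : (insert b ρ).card = r := by rw [card_insert_of_notMem hbm.2, hρ]
  have hne : insert a ρ ≠ insert b ρ := by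
    intro h
    have : a ∈ insert b ρ := h ▸ mem_insert_self a ρ
    rw [mem_insert] at this
    rcases this with h | h
    · exact hab.ne h
    · exact ham.2 h
  have hdα : insert a ρ \ ρ = {a} := by
    ext x
    simp only [mem_sdiff, mem_insert, mem_singleton]
    constructor
    · rintro ⟨h | h, h'⟩
      · exact h
      · exact absurd h h'
    · rintro rfl
      exact ⟨Or.inl rfl, ham.2⟩
  have hdβ : insert b ρ \ ρ = {b} := by
    ext x
    simp only [mem_sdiff, mem_insert, mem_singleton]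
    constructor
    · rintro ⟨h | h, h'⟩
      · exact h
      · exact absurd h h'
    · rintro rfl
      exact ⟨Or.inl rfl, hbm.2⟩
  have heα : insert a (insert b ρ) \ insert a ρ = {b} := by
    ext x
    simp only [mem_sdiff, mem_insert, mem_singleton, not_or]
    constructor
    · rintro ⟨h | h | h, h1, h2⟩
      · exact absurd h h1
      · exact h
      · exact absurd h h2
    · rintro rfl
      exact ⟨Or.inr (Or.inl rfl), hab.ne', hbm.2⟩
  have heβ : insert a (insert b ρ) \ insert b ρ = {a} := by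
    ext x
    simp only [mem_sdiff, mem_insert, mem_singleton, not_or]
    constructor
    · rintro ⟨h | h | h, h1, h2⟩
      · exact h
      · exact absurd h h1
      · exact absurd h h2
    · rintro rfl
      exact ⟨Or.inl rfl, hab.ne, ham.2⟩
  set p := (ρ.filter (fun w => w < a)).card with hp
  set q := (ρ.filter (fun w => w < b)).card with hq
  refine ⟨⟨insert a ρ, hα, hcα⟩, ⟨insert b ρ, hβ, hcβ⟩, ?_, ?_, (-1) ^ (p + q), ?_, ?_⟩
  · intro h
    exact hne (congrArg Subtype.val h)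
  · rw [hτ2]
    ext x
    simp only [mem_union, mem_insert]
    tauto
  · rw [← mul_pow]; norm_num
  · intro σ
    simp only [cmf, bd, Matrix.of_apply]
    by_cases h1 : σ = ⟨insert a ρ, hα, hcα⟩
    · rw [if_pos h1]
      subst h1
      rw [if_pos (subset_insert a ρ), if_pos (by rw [hτ2]; exact insert_subset_insert _ (subset_insert _ _)), sg, hdα,
        sum_singleton, hτ2, heα, sum_singleton, cnt_insert ρ a b b ham.2 hbm.2 hab, if_pos hab,
        if_neg (lt_irrefl b), ← hp, ← hq, pow_add, pow_add, pow_add]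
      ring
    · rw [if_neg h1]
      by_cases h2 : σ = ⟨insert b ρ, hβ, hcβ⟩
      · rw [if_pos h2]
        subst h2
        rw [if_pos (subset_insert b ρ), if_pos (by rw [hτ2]; exact subset_insert _ _), sg, hdβ,
          sum_singleton, hτ2, heβ, sum_singleton, cnt_insert ρ a b a ham.2 hbm.2 hab,
          if_neg (lt_irrefl a), if_neg (not_lt.2 hab.le), ← hp, ← hq, pow_add, pow_add, pow_add]
        ring
      · rw [if_neg h2]
        by_cases h3 : ρ ⊆ σ.1
        · rw [if_pos h3]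
          by_cases h4 : σ.1 ⊆ τ.1
          · exfalso
            have h5 : (σ.1 \ ρ).card = 1 := by
              rw [card_sdiff_of_subset h3, σ.2.2]; omega
            obtain ⟨x, hx⟩ := card_eq_one.1 h5
            have h6 : σ.1 = insert x ρ := by
              ext y
              have := Finset.ext_iff.1 hx y
              simp only [mem_sdiff, mem_singleton] at this
              rw [mem_insert]
              constructor
              · intro hy
                by_cases hyρ : y ∈ ρ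
                · exact Or.inr hyρ
                · exact Or.inl (this.1 ⟨hy, hyρ⟩)
              · rintro (h | h)
                · exact (this.2 h).1
                · exact h3 h
            have h7 : x ∈ σ.1 \ ρ := by rw [hx]; exact mem_singleton_self x
            rw [mem_sdiff] at h7
            have h8 := h4 h7.1
            rw [hτ2, mem_insert, mem_insert] at h8
            rcases h8 with h | h | h
            · exact h1 (Subtype.ext (by rw [h6, h]))
            · exact h2 (Subtype.ext (by rw [h6, h]))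
            · exact h7.2 h
          · rw [if_neg h4, mul_zero]
        · rw [if_neg h3]

/-- the link graph, on the ridges -/
def gr2 (X : Finset (Finset (Fin n))) (r : ℕ) (R : Finset (Fin n) → Finset (Fin n)) :
    SimpleGraph {σ : Finset (Fin n) // σ ∈ X ∧ σ.card = r} :=
  SimpleGraph.fromRel (fun σ σ' => R (σ.1 ∪ σ'.1) ⊆ σ.1 ∧ R (σ.1 ∪ σ'.1) ⊆ σ'.1 ∧
    (σ.1 ∪ σ'.1).card = r + 1 ∧ σ.1 ∪ σ'.1 ∈ X)

theorem gr2_adj (X : Finset (Finset (Fin n))) (r : ℕ) (R : Finset (Fin n) → Finset (Fin n))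
    (σ σ' : {σ : Finset (Fin n) // σ ∈ X ∧ σ.card = r}) :
    (gr2 X r R).Adj σ σ' ↔ σ ≠ σ' ∧ R (σ.1 ∪ σ'.1) ⊆ σ.1 ∧ R (σ.1 ∪ σ'.1) ⊆ σ'.1 ∧
      (σ.1 ∪ σ'.1).card = r + 1 ∧ σ.1 ∪ σ'.1 ∈ X := by
  rw [gr2, SimpleGraph.fromRel_adj, union_comm σ'.1]
  tauto

theorem union_card_ge {r : ℕ} (σ σ' : Finset (Fin n)) (h : σ.card = r) (h' : σ'.card = r)
    (hne : σ ≠ σ') : r + 1 ≤ (σ ∪ σ').card := by
  have h1 : σ ⊂ σ ∪ σ' := by
    rw [Finset.ssubset_iff_of_subset subset_union_left]
    by_contra hcon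
    push Not at hcon
    apply hne
    symm
    apply Finset.eq_of_subset_of_card_le _ (by rw [h, h'])
    intro x hx
    exact hcon x (mem_union_right _ hx)
  have := Finset.card_lt_card h1
  omega

open Classical in
theorem cm_eq_lap (X : Finset (Finset (Fin n)))
    (hX : ∀ s ∈ X, ∀ t : Finset (Fin n), t ⊆ s → t.Nonempty → t ∈ X)
    (r : ℕ) (R : Finset (Fin n) → Finset (Fin n))
    (hR : ∀ τ ∈ X, τ.card = r + 1 → R τ ⊆ τ ∧ (R τ).card + 1 = r) :
    cm X r R * (cm X r R).conjTranspose = (gr2 X r R).lapMatrix ℝ := by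
  have hent : ∀ σ σ', (cm X r R * (cm X r R).conjTranspose) σ σ' =
      ∑ τ, cm X r R σ τ * cm X r R σ' τ := by
    intro σ σ'
    rw [Matrix.mul_apply]
    exact Finset.sum_congr rfl fun τ _ => by rw [Matrix.conjTranspose_apply, star_trivial]
  have hsup : ∀ σ τ, cm X r R σ τ ≠ 0 → R τ.1 ⊆ σ.1 ∧ σ.1 ⊆ τ.1 := by
    intro σ τ h
    constructor
    · by_contra h'
      exact h (by simp [cm, cmf, h'])
    · by_contra h'
      exact h (by simp [cm, cmf, bd, h'])
  have hoff : ∀ σ σ', σ ≠ σ' → (cm X r R * (cm X r R).conjTranspose) σ σ' =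
      -(if (gr2 X r R).Adj σ σ' then (1 : ℝ) else 0) := by
    intro σ σ' hne
    have hne' : σ.1 ≠ σ'.1 := fun h => hne (Subtype.ext h)
    rw [hent]
    have hz : ∀ τ, cm X r R σ τ * cm X r R σ' τ ≠ 0 →
        R τ.1 ⊆ σ.1 ∧ R τ.1 ⊆ σ'.1 ∧ τ.1 = σ.1 ∪ σ'.1 := by
      intro τ hcon
      obtain ⟨h1, h2⟩ := mul_ne_zero_iff.1 hcon
      obtain ⟨h3, h4⟩ := hsup _ _ h1
      obtain ⟨h5, h6⟩ := hsup _ _ h2
      refine ⟨h3, h5, ?_⟩
      symm
      apply Finset.eq_of_subset_of_card_le (union_subset h4 h6)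
      rw [τ.2.2]
      exact union_card_ge _ _ σ.2.2 σ'.2.2 hne'
    by_cases hadj : (gr2 X r R).Adj σ σ'
    · rw [if_pos hadj]
      obtain ⟨-, hr1, hr2, hcard, hm⟩ := (gr2_adj X r R σ σ').1 hadj
      rw [Finset.sum_eq_single_of_mem (⟨σ.1 ∪ σ'.1, hm, hcard⟩ :
        {τ : Finset (Fin n) // τ ∈ X ∧ τ.card = r + 1}) (mem_univ _)
        (fun τ _ hτ => by
          by_contra h
          exact hτ (Subtype.ext (hz τ h).2.2))]
      obtain ⟨α, β, hαβ, hu, e, he, hcol⟩ := col_gen X hX r (R (σ.1 ∪ σ'.1))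
        (hR _ hm hcard).2 ⟨σ.1 ∪ σ'.1, hm, hcard⟩ (hR _ hm hcard).1
      have hmem : ∀ κ : {σ : Finset (Fin n) // σ ∈ X ∧ σ.card = r},
          R (σ.1 ∪ σ'.1) ⊆ κ.1 → κ.1 ⊆ σ.1 ∪ σ'.1 → κ = α ∨ κ = β := by
        intro κ hκ hκ2
        by_contra hcon
        push Not at hcon
        have h0 := hcol κ
        rw [if_neg hcon.1, if_neg hcon.2] at h0
        simp only [cmf, bd, Matrix.of_apply] at h0
        rw [if_pos hκ, if_pos hκ2] at h0
        rcases mul_eq_zero.1 h0 with h | h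
        · have := sg_sq (R (σ.1 ∪ σ'.1)) κ.1
          rw [h] at this
          norm_num at this
        · exact absurd h (pow_ne_zero _ (by norm_num))
      have hcol' : ∀ κ, cm X r R κ ⟨σ.1 ∪ σ'.1, hm, hcard⟩ =
          if κ = α then -e else if κ = β then e else 0 := hcol
      rw [hcol', hcol']
      rcases hmem σ hr1 subset_union_left with h1 | h1 <;>
        rcases hmem σ' hr2 subset_union_right with h2 | h2
      · exact absurd (h1.trans h2.symm) hne
      · rw [if_pos h1, if_neg (by rw [h2]; exact hαβ.symm), if_pos h2]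
        linarith
      · rw [if_neg (by rw [h1]; exact hαβ.symm), if_pos h1, if_pos h2]
        linarith
      · exact absurd (h1.trans h2.symm) hne
    · rw [if_neg hadj, neg_zero]
      refine Finset.sum_eq_zero fun τ _ => ?_
      by_contra h
      obtain ⟨h1, h2, h3⟩ := hz τ h
      apply hadj
      rw [gr2_adj, ← h3]
      exact ⟨hne, h1, h2, τ.2.2, τ.2.1⟩
  have hcs : ∀ τ, ∑ σ, cm X r R σ τ = 0 := by
    intro τ
    obtain ⟨α, β, hαβ, -, e, he, hcol⟩ := col_gen X hX r (R τ.1) (hR _ τ.2.1 τ.2.2).2 τ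
      (hR _ τ.2.1 τ.2.2).1
    replace hcol : ∀ σ, cm X r R σ τ = if σ = α then -e else if σ = β then e else 0 := hcol
    have : ∀ σ, cm X r R σ τ = (if σ = α then -e else 0) + (if σ = β then e else 0) := by
      intro σ
      rw [hcol]
      by_cases h1 : σ = α
      · rw [if_pos h1, if_pos h1, if_neg (by rw [h1]; exact hαβ), add_zero]
      · rw [if_neg h1, if_neg h1, zero_add]
    simp only [this, Finset.sum_add_distrib, Finset.sum_ite_eq', mem_univ, if_true]
    ring
  have hrow : ∀ σ, ∑ σ', (cm X r R * (cm X r R).conjTranspose) σ σ' = 0 := by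
    intro σ
    simp only [hent]
    rw [Finset.sum_comm]
    refine Finset.sum_eq_zero fun τ _ => ?_
    rw [← Finset.mul_sum, hcs, mul_zero]
  ext σ σ'
  by_cases h : σ = σ'
  · subst h
    have h1 := hrow σ
    rw [← Finset.add_sum_erase _ _ (mem_univ σ)] at h1
    have h2 : ∑ σ' ∈ univ.erase σ, (cm X r R * (cm X r R).conjTranspose) σ σ' =
        -((gr2 X r R).degree σ : ℝ) := by
      rw [Finset.sum_congr rfl fun σ' hσ' => hoff σ σ' (Finset.ne_of_mem_erase hσ').symm,
        Finset.sum_neg_distrib, SimpleGraph.degree_eq_sum_if_adj]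
      congr 1
      rw [← Finset.add_sum_erase (a := σ) _ _ (mem_univ σ)]
      simp
    rw [h2] at h1
    rw [SimpleGraph.lapMatrix, Matrix.sub_apply, SimpleGraph.degMatrix, Matrix.diagonal_apply_eq,
      SimpleGraph.adjMatrix_apply]
    simp only [SimpleGraph.irrefl, if_false, sub_zero]
    linarith
  · rw [hoff σ σ' h, SimpleGraph.lapMatrix, Matrix.sub_apply, SimpleGraph.degMatrix,
      Matrix.diagonal_apply_ne _ h, SimpleGraph.adjMatrix_apply, zero_sub]

theorem cm_col_sq (X : Finset (Finset (Fin n)))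
    (hX : ∀ s ∈ X, ∀ t : Finset (Fin n), t ⊆ s → t.Nonempty → t ∈ X)
    (r : ℕ) (R : Finset (Fin n) → Finset (Fin n))
    (hR : ∀ τ ∈ X, τ.card = r + 1 → R τ ⊆ τ ∧ (R τ).card + 1 = r)
    (τ : {τ : Finset (Fin n) // τ ∈ X ∧ τ.card = r + 1}) :
    ∑ σ, cm X r R σ τ * cm X r R σ τ = 2 := by
  classical
  obtain ⟨α, β, hαβ, -, e, he, hcol⟩ := col_gen X hX r (R τ.1) (hR _ τ.2.1 τ.2.2).2 τ
    (hR _ τ.2.1 τ.2.2).1
  replace hcol : ∀ σ, cm X r R σ τ = if σ = α then -e else if σ = β then e else 0 := hcol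
  have : ∀ σ, cm X r R σ τ * cm X r R σ τ =
      (if σ = α then 1 else 0) + (if σ = β then (1 : ℝ) else 0) := by
    intro σ
    rw [hcol]
    by_cases h1 : σ = α
    · rw [if_pos h1, if_pos h1, if_neg (by rw [h1]; exact hαβ), add_zero]
      linarith
    · rw [if_neg h1, if_neg h1, zero_add]
      split_ifs
      · exact he
      · ring
  simp only [this, Finset.sum_add_distrib, Finset.sum_ite_eq', mem_univ, if_true]
  norm_num

open Classical in
theorem edges_eq2 (X : Finset (Finset (Fin n)))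
    (hX : ∀ s ∈ X, ∀ t : Finset (Fin n), t ⊆ s → t.Nonempty → t ∈ X)
    (r : ℕ) (R : Finset (Fin n) → Finset (Fin n))
    (hR : ∀ τ ∈ X, τ.card = r + 1 → R τ ⊆ τ ∧ (R τ).card + 1 = r) :
    ((gr2 X r R).edgeFinset.card : ℝ) = ((X.filter (fun s => s.card = r + 1)).card : ℝ) := by
  have h1 : (∑ σ, ((gr2 X r R).degree σ : ℝ)) = 2 * ((gr2 X r R).edgeFinset.card : ℝ) := by
    exact_mod_cast (gr2 X r R).sum_degrees_eq_twice_card_edges
  have h2 : (cm X r R * (cm X r R).conjTranspose).trace = ∑ σ, ((gr2 X r R).degree σ : ℝ) := by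
    rw [cm_eq_lap X hX r R hR]
    simp only [SimpleGraph.lapMatrix, Matrix.trace_sub, SimpleGraph.trace_adjMatrix, sub_zero,
      SimpleGraph.degMatrix, Matrix.trace_diagonal]
  have h3 : (cm X r R * (cm X r R).conjTranspose).trace =
      ∑ _τ : {τ : Finset (Fin n) // τ ∈ X ∧ τ.card = r + 1}, (2 : ℝ) := by
    rw [Matrix.trace]
    simp only [Matrix.diag_apply, Matrix.mul_apply, Matrix.conjTranspose_apply, star_trivial]
    rw [Finset.sum_comm]
    exact Finset.sum_congr rfl fun τ _ => cm_col_sq X hX r R hR τ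
  have h4 : (Fintype.card {τ : Finset (Fin n) // τ ∈ X ∧ τ.card = r + 1} : ℝ) =
      ((X.filter (fun s => s.card = r + 1)).card : ℝ) := by
    congr 1
    rw [Fintype.card_subtype]
    congr 1
    ext s
    simp
  rw [Finset.sum_const, card_univ, nsmul_eq_mul, h4] at h3
  linarith

theorem bd_gram (X : Finset (Finset (Fin n)))
    (hX : ∀ s ∈ X, ∀ t : Finset (Fin n), t ⊆ s → t.Nonempty → t ∈ X)
    (r : ℕ) (R : Finset (Fin n) → Finset (Fin n))
    (hR : ∀ τ ∈ X, τ.card = r + 1 → R τ ⊆ τ ∧ (R τ).card + 1 = r)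
    (hR2 : ∀ τ ∈ X, τ.card = r + 1 → ∀ τ' ∈ X, τ'.card = r + 1 → (τ ∩ τ').card = r → R τ = R τ') :
    (bd X r).conjTranspose * bd X r - Matrix.scalar _ ((r : ℝ) - 1) =
      (cm X r R).conjTranspose * cm X r R := by
  classical
  ext τ τ'
  rw [Matrix.sub_apply, Matrix.mul_apply, Matrix.mul_apply]
  simp only [Matrix.conjTranspose_apply, star_trivial]
  by_cases h : τ = τ'
  · subst h
    rw [cm_col_sq X hX r R hR τ, Matrix.scalar_apply, Matrix.diagonal_apply_eq]
    have h1 : ∀ σ, bd X r σ τ * bd X r σ τ = if σ.1 ⊆ τ.1 then (1 : ℝ) else 0 := by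
      intro σ
      simp only [bd, Matrix.of_apply]
      split_ifs
      · rw [← mul_pow]; norm_num
      · ring
    have h2 : (univ.filter (fun σ : {σ : Finset (Fin n) // σ ∈ X ∧ σ.card = r} =>
        σ.1 ⊆ τ.1)).card = r + 1 := by
      have h3 : (τ.1.powersetCard r).card = r + 1 := by
        rw [card_powersetCard, τ.2.2, Nat.choose_succ_self_right]
      refine Eq.trans ?_ h3
      refine Finset.card_bij (fun σ _ => σ.1) ?_ ?_ ?_
      · intro σ hσ
        rw [mem_powersetCard]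
        exact ⟨(mem_filter.1 hσ).2, σ.2.2⟩
      · intro σ _ σ' _ h
        exact Subtype.ext h
      · intro s hs
        rw [mem_powersetCard] at hs
        have hne : s.Nonempty := by
          have := (hR _ τ.2.1 τ.2.2).2
          rw [← card_pos, hs.2]; omega
        exact ⟨⟨s, hX τ.1 τ.2.1 s hs.1 hne, hs.2⟩, mem_filter.2 ⟨mem_univ _, hs.1⟩, rfl⟩
    simp only [h1]
    rw [← Finset.sum_filter, Finset.sum_const, h2, nsmul_eq_mul]
    push_cast
    ring
  · rw [Matrix.scalar_apply, Matrix.diagonal_apply_ne _ h, sub_zero]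
    refine Finset.sum_congr rfl fun σ _ => ?_
    by_cases hcon : bd X r σ τ * bd X r σ τ' = 0
    · rw [hcon]
      simp only [cm, cmf, Matrix.of_apply]
      split_ifs
      · linear_combination (-(sg (R τ.1) σ.1 * sg (R τ'.1) σ.1)) * hcon
      · ring
      · ring
      · ring
    · obtain ⟨h2, h3⟩ := mul_ne_zero_iff.1 hcon
      have h4 : σ.1 ⊆ τ.1 := by
        by_contra h'
        exact h2 (by simp [bd, h'])
      have h5 : σ.1 ⊆ τ'.1 := by
        by_contra h'
        exact h3 (by simp [bd, h'])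
      have h6 := union_card_ge _ _ τ.2.2 τ'.2.2 (fun h' => h (Subtype.ext h'))
      have h7 := Finset.card_union_add_card_inter τ.1 τ'.1
      rw [τ.2.2, τ'.2.2] at h7
      have h8 : σ.1 = τ.1 ∩ τ'.1 := by
        apply Finset.eq_of_subset_of_card_le (subset_inter h4 h5)
        rw [σ.2.2]
        omega
      have h9 : R τ.1 = R τ'.1 := hR2 _ τ.2.1 τ.2.2 _ τ'.2.1 τ'.2.2 (by rw [← h8, σ.2.2])
      have h10 : R τ.1 ⊆ σ.1 := by
        rw [h8]
        apply subset_inter (hR _ τ.2.1 τ.2.2).1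
        rw [h9]
        exact (hR _ τ'.2.1 τ'.2.2).1
      simp only [cm, cmf, Matrix.of_apply]
      rw [← h9, if_pos h10, if_pos h10]
      have := sg_sq (R τ.1) σ.1
      linear_combination (-(bd X r σ τ * bd X r σ τ')) * this

theorem bound_gen (X : Finset (Finset (Fin n)))
    (hX : ∀ s ∈ X, ∀ t : Finset (Fin n), t ⊆ s → t.Nonempty → t ∈ X)
    (r : ℕ) (hr : 1 ≤ r) (R : Finset (Fin n) → Finset (Fin n))
    (hR : ∀ τ ∈ X, τ.card = r + 1 → R τ ⊆ τ ∧ (R τ).card + 1 = r)
    (hR2 : ∀ τ ∈ X, τ.card = r + 1 → ∀ τ' ∈ X, τ'.card = r + 1 → (τ ∩ τ').card = r → R τ = R τ')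
    (S : Finset {σ : Finset (Fin n) // σ ∈ X ∧ σ.card = r})
    (hM : (bd X r * (bd X r).conjTranspose).IsHermitian) :
    ∑ i ∈ S, hM.eigenvalues i ≤ ((r : ℝ) - 1) * S.card +
      (((X.filter (fun s => s.card = r + 1)).card : ℝ) + ((S.card : ℝ) ^ 2 + S.card) / 2) := by
  classical
  rw [← edges_eq2 X hX r R hR]
  have hr' : (1 : ℝ) ≤ r := by exact_mod_cast hr
  exact transfer (bd X r) (cm X r R) ((r : ℝ) - 1) (by linarith) (gr2 X r R)
    (bd_gram X hX r R hR hR2) (cm_eq_lap X hX r R hR) hM S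

end Pool.Agent.Y786.UL
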