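import Pool.Agent.Helper244.Br.Final

/-!
The up-Laplacian in degree zero of a simplicial complex is a graph Laplacian (helper786).
-/

set_option autoImplicit false

namespace Pool.Agent.Y786.UL

open Finset

variable {n : ℕ}

/-- the matrix of the boundary map from `r`-dimensional to `(r-1)`-dimensional faces -/
def bd (X : Finset (Finset (Fin n))) (r : ℕ) :
    Matrix {σ : Finset (Fin n) // σ ∈ X ∧ σ.card = r}
      {τ : Finset (Fin n) // τ ∈ X ∧ τ.card = r + 1} ℝ :=
  Matrix.of (fun σ τ => if σ.1 ⊆ τ.1 then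
    ((-1 : ℝ) ^ (∑ v ∈ τ.1 \ σ.1, (τ.1.filter (fun w => w < v)).card)) else 0)

theorem sign_lo (a b : Fin n) (hab : a < b) :
    ((-1 : ℝ) ^ (∑ v ∈ ({a, b} : Finset (Fin n)) \ {a},
      (({a, b} : Finset (Fin n)).filter (fun w => w < v)).card)) = -1 := by
  have h1 : ({a, b} : Finset (Fin n)) \ {a} = {b} := by
    ext x
    simp only [mem_sdiff, mem_insert, mem_singleton]
    constructor
    · rintro ⟨h | h, h'⟩
      · exact absurd h h'
      · exact h
    · rintro rfl
      exact ⟨Or.inr rfl, hab.ne'⟩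
  have h2 : ({a, b} : Finset (Fin n)).filter (fun w => w < b) = {a} := by
    ext x
    simp only [mem_filter, mem_insert, mem_singleton]
    constructor
    · rintro ⟨h | h, h'⟩
      · exact h
      · exact absurd h' (by rw [h]; exact lt_irrefl _)
    · rintro rfl
      exact ⟨Or.inl rfl, hab⟩
  rw [h1, sum_singleton, h2, card_singleton, pow_one]

theorem sign_hi (a b : Fin n) (hab : a < b) :
    ((-1 : ℝ) ^ (∑ v ∈ ({a, b} : Finset (Fin n)) \ {b},
      (({a, b} : Finset (Fin n)).filter (fun w => w < v)).card)) = 1 := by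
  have h1 : ({a, b} : Finset (Fin n)) \ {b} = {a} := by
    ext x
    simp only [mem_sdiff, mem_insert, mem_singleton]
    constructor
    · rintro ⟨h | h, h'⟩
      · exact h
      · exact absurd h h'
    · rintro rfl
      exact ⟨Or.inl rfl, hab.ne⟩
  have h2 : ({a, b} : Finset (Fin n)).filter (fun w => w < a) = ∅ := by
    ext x
    simp only [mem_filter, mem_insert, mem_singleton, notMem_empty, iff_false]
    rintro ⟨h | h, h'⟩
    · exact absurd h' (by rw [h]; exact lt_irrefl _)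
    · exact absurd h' (by rw [h]; exact not_lt.2 hab.le)
  rw [h1, sum_singleton, h2, card_empty, pow_zero]

theorem pair_form (τ : Finset (Fin n)) (h : τ.card = 2) : ∃ a b, a < b ∧ τ = {a, b} := by
  obtain ⟨x, y, hxy, rfl⟩ := Finset.card_eq_two.1 h
  rcases lt_or_gt_of_ne hxy with h | h
  · exact ⟨x, y, h, rfl⟩
  · exact ⟨y, x, h, Finset.pair_comm _ _⟩

theorem col_form (X : Finset (Finset (Fin n)))
    (hX : ∀ s ∈ X, ∀ t : Finset (Fin n), t ⊆ s → t.Nonempty → t ∈ X)
    (τ : {τ : Finset (Fin n) // τ ∈ X ∧ τ.card = 1 + 1}) :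
    ∃ α β : {σ : Finset (Fin n) // σ ∈ X ∧ σ.card = 1}, α ≠ β ∧ α.1 ∪ β.1 = τ.1 ∧
      ∀ σ, bd X 1 σ τ = if σ = α then -1 else if σ = β then 1 else 0 := by
  obtain ⟨a, b, hab, hτ⟩ := pair_form τ.1 τ.2.2
  have ha : ({a} : Finset (Fin n)) ∈ X := hX τ.1 τ.2.1 _ (by rw [hτ]; simp) (singleton_nonempty a)
  have hb : ({b} : Finset (Fin n)) ∈ X := hX τ.1 τ.2.1 _ (by rw [hτ]; simp) (singleton_nonempty b)
  refine ⟨⟨{a}, ha, card_singleton a⟩, ⟨{b}, hb, card_singleton b⟩, ?_, ?_, ?_⟩
  · intro h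
    have := congrArg Subtype.val h
    simp only [singleton_inj] at this
    exact hab.ne this
  · rw [hτ]; rfl
  · intro σ
    obtain ⟨x, hx⟩ := Finset.card_eq_one.1 σ.2.2
    have e : ∀ (c : Fin n) (hc : ({c} : Finset (Fin n)) ∈ X ∧ ({c} : Finset (Fin n)).card = 1),
        (σ = ⟨{c}, hc⟩ ↔ x = c) := by
      intro c hc
      rw [Subtype.ext_iff, hx, singleton_inj]
    simp only [bd, Matrix.of_apply, e, hx, hτ]
    by_cases h1 : x = a
    · subst h1
      rw [if_pos (by simp), if_pos rfl]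
      exact sign_lo x b hab
    · rw [if_neg h1]
      by_cases h2 : x = b
      · subst h2
        rw [if_pos (by simp), if_pos rfl]
        exact sign_hi a x hab
      · rw [if_neg h2, if_neg]
        simp [h1, h2]

/-- the graph of the complex -/
def gr (X : Finset (Finset (Fin n))) :
    SimpleGraph {σ : Finset (Fin n) // σ ∈ X ∧ σ.card = 1} :=
  SimpleGraph.fromRel (fun σ σ' => σ.1 ∪ σ'.1 ∈ X)

theorem gr_adj (X : Finset (Finset (Fin n)))
    (σ σ' : {σ : Finset (Fin n) // σ ∈ X ∧ σ.card = 1}) :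
    (gr X).Adj σ σ' ↔ σ ≠ σ' ∧ σ.1 ∪ σ'.1 ∈ X := by
  rw [gr, SimpleGraph.fromRel_adj, union_comm σ'.1, or_self]

open Classical in
theorem up_eq_lap (X : Finset (Finset (Fin n)))
    (hX : ∀ s ∈ X, ∀ t : Finset (Fin n), t ⊆ s → t.Nonempty → t ∈ X) :
    bd X 1 * (bd X 1).conjTranspose = (gr X).lapMatrix ℝ := by
  have hent : ∀ σ σ', (bd X 1 * (bd X 1).conjTranspose) σ σ' = ∑ τ, bd X 1 σ τ * bd X 1 σ' τ := by
    intro σ σ'
    rw [Matrix.mul_apply]
    exact Finset.sum_congr rfl fun τ _ => by rw [Matrix.conjTranspose_apply, star_trivial]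
  -- off diagonal
  have hoff : ∀ σ σ', σ ≠ σ' → (bd X 1 * (bd X 1).conjTranspose) σ σ' =
      -(if (gr X).Adj σ σ' then (1 : ℝ) else 0) := by
    intro σ σ' hne
    rw [hent]
    have hz : ∀ τ, τ.1 ≠ σ.1 ∪ σ'.1 → bd X 1 σ τ * bd X 1 σ' τ = 0 := by
      intro τ hτ
      by_contra hcon
      apply hτ
      obtain ⟨h1, h2⟩ := mul_ne_zero_iff.1 hcon
      have h3 : σ.1 ⊆ τ.1 := by
        by_contra h
        exact h1 (by simp [bd, h])
      have h4 : σ'.1 ⊆ τ.1 := by
        by_contra h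
        exact h2 (by simp [bd, h])
      symm
      apply Finset.eq_of_subset_of_card_le (union_subset h3 h4)
      have hd : Disjoint σ.1 σ'.1 := by
        obtain ⟨x, hx⟩ := Finset.card_eq_one.1 σ.2.2
        obtain ⟨y, hy⟩ := Finset.card_eq_one.1 σ'.2.2
        rw [hx, hy, disjoint_singleton]
        intro hxy
        exact hne (Subtype.ext (by rw [hx, hy, hxy]))
      rw [card_union_of_disjoint hd, σ.2.2, σ'.2.2, τ.2.2]
    by_cases hadj : (gr X).Adj σ σ'
    · rw [if_pos hadj]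
      have hm := ((gr_adj X σ σ').1 hadj).2
      have hcard : (σ.1 ∪ σ'.1).card = 1 + 1 := by
        have hd : Disjoint σ.1 σ'.1 := by
          obtain ⟨x, hx⟩ := Finset.card_eq_one.1 σ.2.2
          obtain ⟨y, hy⟩ := Finset.card_eq_one.1 σ'.2.2
          rw [hx, hy, disjoint_singleton]
          intro hxy
          exact hne (Subtype.ext (by rw [hx, hy, hxy]))
        rw [card_union_of_disjoint hd, σ.2.2, σ'.2.2]
      rw [Finset.sum_eq_single_of_mem (⟨σ.1 ∪ σ'.1, hm, hcard⟩ :
        {τ : Finset (Fin n) // τ ∈ X ∧ τ.card = 1 + 1}) (mem_univ _)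
        (fun τ _ hτ => hz τ (fun h => hτ (Subtype.ext h)))]
      obtain ⟨α, β, hαβ, hu, hcol⟩ := col_form X hX ⟨σ.1 ∪ σ'.1, hm, hcard⟩
      have hmem : ∀ ρ : {σ : Finset (Fin n) // σ ∈ X ∧ σ.card = 1},
          ρ.1 ⊆ σ.1 ∪ σ'.1 → ρ = α ∨ ρ = β := by
        intro ρ hρ
        by_contra hcon
        push Not at hcon
        have h0 := hcol ρ
        rw [if_neg hcon.1, if_neg hcon.2] at h0
        simp only [bd, Matrix.of_apply] at h0
        rw [if_pos hρ] at h0
        exact absurd h0 (pow_ne_zero _ (by norm_num))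
      rw [hcol, hcol]
      rcases hmem σ subset_union_left with h1 | h1 <;>
        rcases hmem σ' subset_union_right with h2 | h2
      · exact absurd (h1.trans h2.symm) hne
      · rw [if_pos h1, if_neg (by rw [h2]; exact hαβ.symm), if_pos h2]; norm_num
      · rw [if_neg (by rw [h1]; exact hαβ.symm), if_pos h1, if_pos h2]; norm_num
      · exact absurd (h1.trans h2.symm) hne
    · rw [if_neg hadj, neg_zero]
      refine Finset.sum_eq_zero fun τ _ => hz τ fun h => hadj ?_
      rw [gr_adj]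
      exact ⟨hne, h ▸ τ.2.1⟩
  -- column sums
  have hcs : ∀ τ, ∑ σ, bd X 1 σ τ = 0 := by
    intro τ
    obtain ⟨α, β, hαβ, -, hcol⟩ := col_form X hX τ
    have : ∀ σ, bd X 1 σ τ = (if σ = α then -1 else 0) + (if σ = β then (1 : ℝ) else 0) := by
      intro σ
      rw [hcol]
      by_cases h1 : σ = α
      · rw [if_pos h1, if_pos h1, if_neg (by rw [h1]; exact hαβ), add_zero]
      · rw [if_neg h1, if_neg h1, zero_add]
    simp only [this, Finset.sum_add_distrib, Finset.sum_ite_eq', mem_univ, if_true]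
    norm_num
  have hrow : ∀ σ, ∑ σ', (bd X 1 * (bd X 1).conjTranspose) σ σ' = 0 := by
    intro σ
    simp only [hent]
    rw [Finset.sum_comm]
    refine Finset.sum_eq_zero fun τ _ => ?_
    rw [← Finset.mul_sum, hcs, mul_zero]
  ext σ σ'
  by_cases h : σ = σ'
  · subst h
    have h1 := hrow σ
    rw [← Finset.add_sum_erase _ _ (mem_univ σ)] at h1
    have h2 : ∑ σ' ∈ univ.erase σ, (bd X 1 * (bd X 1).conjTranspose) σ σ' =
        -((gr X).degree σ : ℝ) := by
      rw [Finset.sum_congr rfl fun σ' hσ' => hoff σ σ' (Finset.ne_of_mem_erase hσ').symm,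
        Finset.sum_neg_distrib, SimpleGraph.degree_eq_sum_if_adj]
      congr 1
      rw [← Finset.add_sum_erase (a := σ) _ _ (mem_univ σ)]
      simp
    rw [h2] at h1
    rw [SimpleGraph.lapMatrix, Matrix.sub_apply, SimpleGraph.degMatrix, Matrix.diagonal_apply_eq,
      SimpleGraph.adjMatrix_apply]
    simp only [SimpleGraph.irrefl, if_false, sub_zero]
    linarith
  · rw [hoff σ σ' h, SimpleGraph.lapMatrix, Matrix.sub_apply, SimpleGraph.degMatrix,
      Matrix.diagonal_apply_ne _ h, SimpleGraph.adjMatrix_apply, zero_sub]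

open Classical in
theorem edges_eq (X : Finset (Finset (Fin n)))
    (hX : ∀ s ∈ X, ∀ t : Finset (Fin n), t ⊆ s → t.Nonempty → t ∈ X) :
    ((gr X).edgeFinset.card : ℝ) = ((X.filter (fun s => s.card = 1 + 1)).card : ℝ) := by
  have h1 : (∑ σ, ((gr X).degree σ : ℝ)) = 2 * ((gr X).edgeFinset.card : ℝ) := by
    exact_mod_cast (gr X).sum_degrees_eq_twice_card_edges
  have h2 : (bd X 1 * (bd X 1).conjTranspose).trace = ∑ σ, ((gr X).degree σ : ℝ) := by
    rw [up_eq_lap X hX]
    simp only [SimpleGraph.lapMatrix, Matrix.trace_sub, SimpleGraph.trace_adjMatrix, sub_zero,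
      SimpleGraph.degMatrix, Matrix.trace_diagonal]
  have h3 : (bd X 1 * (bd X 1).conjTranspose).trace =
      ∑ _τ : {τ : Finset (Fin n) // τ ∈ X ∧ τ.card = 1 + 1}, (2 : ℝ) := by
    rw [Matrix.trace]
    simp only [Matrix.diag_apply, Matrix.mul_apply, Matrix.conjTranspose_apply, star_trivial]
    rw [Finset.sum_comm]
    refine Finset.sum_congr rfl fun τ _ => ?_
    obtain ⟨α, β, hαβ, -, hcol⟩ := col_form X hX τ
    have : ∀ σ, bd X 1 σ τ * bd X 1 σ τ =
        (if σ = α then 1 else 0) + (if σ = β then (1 : ℝ) else 0) := by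
      intro σ
      rw [hcol]
      by_cases h1 : σ = α
      · rw [if_pos h1, if_pos h1, if_neg (by rw [h1]; exact hαβ), add_zero]; norm_num
      · rw [if_neg h1, if_neg h1, zero_add]
        split_ifs <;> norm_num
    simp only [this, Finset.sum_add_distrib, Finset.sum_ite_eq', mem_univ, if_true]
    norm_num
  have h4 : (Fintype.card {τ : Finset (Fin n) // τ ∈ X ∧ τ.card = 1 + 1} : ℝ) =
      ((X.filter (fun s => s.card = 1 + 1)).card : ℝ) := by
    congr 1
    rw [Fintype.card_subtype]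
    congr 1
    ext s
    simp
  rw [Finset.sum_const, card_univ, nsmul_eq_mul, h4] at h3
  linarith

theorem bound_one (X : Finset (Finset (Fin n)))
    (hX : ∀ s ∈ X, ∀ t : Finset (Fin n), t ⊆ s → t.Nonempty → t ∈ X)
    (S : Finset {σ : Finset (Fin n) // σ ∈ X ∧ σ.card = 1})
    (hM : (bd X 1 * (bd X 1).conjTranspose).IsHermitian) :
    ∑ i ∈ S, hM.eigenvalues i ≤ ((X.filter (fun s => s.card = 1 + 1)).card : ℝ) +
      ((S.card : ℝ) ^ 2 + S.card) / 2 := by
  classical
  have key : ∀ (M : Matrix {σ : Finset (Fin n) // σ ∈ X ∧ σ.card = 1}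
      {σ : Finset (Fin n) // σ ∈ X ∧ σ.card = 1} ℝ) (hM : M.IsHermitian),
      M = (gr X).lapMatrix ℝ → ∑ i ∈ S, hM.eigenvalues i ≤
        ((gr X).edgeFinset.card : ℝ) + ((S.card : ℝ) ^ 2 + S.card) / 2 := by
    intro M hM h
    subst h
    exact Pool.Br.brouwer_finset (gr X) S
  rw [← edges_eq X hX]
  exact key _ hM (up_eq_lap X hX)

end Pool.Agent.Y786.UL
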